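import Pool.Agent.Lib.MP_28dde8_gt.Tri.Main

/-!
# Dilation surfaces of genus 2 all of whose cylinders are flat
-/

namespace Pool.Agent.Results.MP_28dde8_gt.AllGenusTwo

open MP28dde8T

/-- A closed connected dilation surface of genus 2, with a geodesic triangulation whose vertices are
the singular points, all of whose closed geodesics have trivial linear holonomy (i.e. all of whose
cylinders are flat) is a translation surface. -/
theorem result {D : Type} [Fintype D] [DecidableEq D] (S : Surface D)
    (hS : S.IsDilationSurface) (hg : S.eulerChar = -2) (hF : S.AllCylindersFlat) :
    S.IsTranslation :=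
  genus_two S hS hg hF

end Pool.Agent.Results.MP_28dde8_gt.AllGenusTwo
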