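import Pool.Agent.Lib.MP_28dde8_gt.Closing

/-! # MP_28dde8_gt: moduli without small integer relations

A closed dilation surface which is cut by one direction into flat cylinders and all of whose
cylinders are flat is a translation surface, as soon as the moduli of the flat cylinders of that
direction satisfy no integer relation with coefficients up to a bound `N`.  The bound depends
only on the gluing pattern and on the lengths of the saddle connections, not on the twists. -/

namespace Pool.Agent.Results.MP_28dde8_gt.IndependentModuli

open Pool.Agent.DilSurf

theorem result {I E : Type} [Fintype I] [Fintype E] (S₀ : CylinderSurface I E) :
    ∃ N : ℕ, ∀ S : CylinderSurface I E, SameLengths S₀ S → NoRelation S.h N →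
      AllCylindersFlat S → IsTranslation S :=
  translation_of_noRelation S₀

end Pool.Agent.Results.MP_28dde8_gt.IndependentModuli
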