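import Mathlib

/-! # MP_28dde8_gt: the moduli of crossing cylinders

A dilation surface is cut by two transverse directions into flat cylinders. If the mean, over the
crossings of the horizontal and the vertical cylinders, of the square root of the product of the two
moduli is at least `1 / 2`, then it is a translation surface. This is the case if the product of the
moduli of two crossing cylinders is always at least `1 / 4`, and if the two multitwists of the surface
have derivatives `(1, t; 0, 1)` and `(1, 0; s, 1)` with `t * s ≤ 4`. -/

open Finset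
open scoped BigOperators Classical

noncomputable section

namespace Pool.Agent.Results.MP_28dde8_gt.LatticeTwists

/-- A closed connected dilation surface cut into rectangles by two transverse directions (called
horizontal and vertical), each of which decomposes the surface into flat cylinders.  `P` is the set
of the rectangles.  The rectangle `p` has width `w p` and height `h p` in its own chart.  Its right
side is glued to the left side of the rectangle `right p` by the dilation of ratio
`h (right p) / h p`, and its top side to the bottom side of the rectangle `up p` by the dilation of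
ratio `w (up p) / w p`. -/
structure RectangleSurface (P : Type) [Fintype P] where
  /-- the neighbour on the right -/
  right : Equiv.Perm P
  /-- the neighbour above -/
  up : Equiv.Perm P
  /-- the width in the chart of the rectangle -/
  w : P → ℝ
  /-- the height in the chart of the rectangle -/
  h : P → ℝ
  w_pos : ∀ p, 0 < w p
  h_pos : ∀ p, 0 < h p
  /-- the surface is connected -/
  connected : ∀ J : Set P, J.Nonempty → (∀ p ∈ J, right p ∈ J) → (∀ p ∈ J, up p ∈ J) →
    J = Set.univ

variable {P : Type} [Fintype P]

/-- The modulus (height divided by circumference) of the horizontal cylinder through the rectangle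
`p`.  It consists of the rectangles `q` in the cycle of `right` through `p`; scaled to height `1` the
rectangle `q` has width `w q / h q`. -/
def hModulus (S : RectangleSurface P) (p : P) : ℝ :=
  1 / ∑ q with S.right.SameCycle p q, S.w q / S.h q

/-- The modulus (width divided by circumference) of the vertical cylinder through the rectangle
`p`.  It consists of the rectangles `q` in the cycle of `up` through `p`; scaled to width `1` the
rectangle `q` has height `h q / w q`. -/
def vModulus (S : RectangleSurface P) (p : P) : ℝ :=
  1 / ∑ q with S.up.SameCycle p q, S.h q / S.w q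

/-- The surface has an affine automorphism with derivative `(1, t; 0, 1)` which is a product of
positive powers of Dehn twists of the horizontal cylinders: `t` times every modulus is a positive
integer. -/
def HasHorizontalTwist (S : RectangleSurface P) (t : ℝ) : Prop :=
  ∀ p, ∃ n : ℕ, 0 < n ∧ t * hModulus S p = n

/-- The surface has an affine automorphism with derivative `(1, 0; s, 1)` which is a product of
positive powers of Dehn twists of the vertical cylinders: `s` times every modulus is a positive
integer. -/
def HasVerticalTwist (S : RectangleSurface P) (s : ℝ) : Prop :=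
  ∀ p, ∃ n : ℕ, 0 < n ∧ s * vModulus S p = n

/-- The surface is a translation surface: one can rescale the rectangles by constants such that all
gluing maps become translations. -/
def IsTranslation (S : RectangleSurface P) : Prop :=
  ∃ c : P → ℝ, (∀ p, 0 < c p) ∧ (∀ p, c (S.right p) * S.h (S.right p) = c p * S.h p) ∧
    ∀ p, c (S.up p) * S.w (S.up p) = c p * S.w p

section aux

/-- the sum of `x q / (sum of x over the cycle of q)` is the number of cycles -/
theorem sum_div_cycle (σ : Equiv.Perm P) (x : P → ℝ) (hx : ∀ p, 0 < x p) :
    ∑ q, x q / (∑ r with σ.SameCycle q r, x r) =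
      (Fintype.card (Quotient (Equiv.Perm.SameCycle.setoid σ)) : ℝ) := by
  have h1 : ∀ c : Quotient (Equiv.Perm.SameCycle.setoid σ),
      ∑ q with (Quotient.mk (Equiv.Perm.SameCycle.setoid σ) q) = c,
        x q / (∑ r with σ.SameCycle q r, x r) = 1 := by
    intro c
    obtain ⟨p, rfl⟩ := Quotient.exists_rep c
    have h2 : ∀ q ∈ (Finset.univ.filter fun q =>
        (Quotient.mk (Equiv.Perm.SameCycle.setoid σ) q) =
          Quotient.mk (Equiv.Perm.SameCycle.setoid σ) p),
        x q / (∑ r with σ.SameCycle q r, x r) = x q / (∑ r with σ.SameCycle p r, x r) := by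
      intro q hq
      have hqp : σ.SameCycle q p := Quotient.exact (Finset.mem_filter.1 hq).2
      congr 1
      refine Finset.sum_congr ?_ fun _ _ => rfl
      ext r
      simp only [Finset.mem_filter, Finset.mem_univ, true_and]
      exact ⟨fun h => hqp.symm.trans h, fun h => hqp.trans h⟩
    rw [Finset.sum_congr rfl h2, ← Finset.sum_div]
    have h3 : (Finset.univ.filter fun q => (Quotient.mk (Equiv.Perm.SameCycle.setoid σ) q) =
        Quotient.mk (Equiv.Perm.SameCycle.setoid σ) p) =
        Finset.univ.filter fun r => σ.SameCycle p r := by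
      ext r
      simp only [Finset.mem_filter, Finset.mem_univ, true_and]
      exact ⟨fun h => (Quotient.exact h : σ.SameCycle r p).symm,
        fun h => Quotient.sound (s := Equiv.Perm.SameCycle.setoid σ) h.symm⟩
    rw [h3]
    apply div_self
    apply ne_of_gt
    exact Finset.sum_pos (fun r _ => hx r)
      ⟨p, Finset.mem_filter.2 ⟨Finset.mem_univ _, Equiv.Perm.SameCycle.refl σ p⟩⟩
  rw [← Finset.sum_fiberwise (s := Finset.univ)
    (g := fun q => Quotient.mk (Equiv.Perm.SameCycle.setoid σ) q), Finset.sum_congr rfl
    fun c _ => h1 c]
  simp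

/-- potentials exist on a graph with at most as many edges as a tree -/
theorem potentials (σ τ : Equiv.Perm P) (hconn : ∀ J : Set P, J.Nonempty → (∀ p ∈ J, σ p ∈ J) →
    (∀ p ∈ J, τ p ∈ J) → J = Set.univ) [Nonempty P]
    (hcard : Fintype.card P + 1 ≤ Fintype.card (Quotient (Equiv.Perm.SameCycle.setoid σ)) +
      Fintype.card (Quotient (Equiv.Perm.SameCycle.setoid τ))) (z : P → ℝ) :
    ∃ (x : Quotient (Equiv.Perm.SameCycle.setoid σ) → ℝ)
      (y : Quotient (Equiv.Perm.SameCycle.setoid τ) → ℝ),
      ∀ p, x (Quotient.mk _ p) - y (Quotient.mk _ p) = z p := by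
  let R := Quotient (Equiv.Perm.SameCycle.setoid σ)
  let U := Quotient (Equiv.Perm.SameCycle.setoid τ)
  let L : ((R → ℝ) × (U → ℝ)) →ₗ[ℝ] (P → ℝ) :=
    { toFun := fun f p => f.1 (Quotient.mk _ p) - f.2 (Quotient.mk _ p)
      map_add' := fun f g => by
        funext p
        simp only [Prod.fst_add, Prod.snd_add, Pi.add_apply]
        ring
      map_smul' := fun c f => by
        funext p
        simp only [Prod.smul_fst, Prod.smul_snd, Pi.smul_apply, smul_eq_mul, RingHom.id_apply]
        ring }
  obtain ⟨p0⟩ := ‹Nonempty P›
  have hker : Module.finrank ℝ (LinearMap.ker L) ≤ 1 := by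
    let e : LinearMap.ker L →ₗ[ℝ] ℝ :=
      { toFun := fun f => f.1.1 (Quotient.mk _ p0)
        map_add' := fun f g => rfl
        map_smul' := fun c f => rfl }
    have hinj : Function.Injective e := by
      rw [← LinearMap.ker_eq_bot, LinearMap.ker_eq_bot']
      intro f hf
      have hf0 : f.1.1 (Quotient.mk _ p0) = 0 := hf
      have hLf : ∀ p, f.1.1 (Quotient.mk _ p) = f.1.2 (Quotient.mk _ p) := by
        intro p
        have h1 : L f.1 = 0 := f.2
        have h2 := congrFun h1 p
        exact sub_eq_zero.1 h2
      have hJ : {p | f.1.1 (Quotient.mk _ p) = 0} = Set.univ := by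
        refine hconn _ ⟨p0, hf0⟩ ?_ ?_
        · intro p hp
          have h3 : (Quotient.mk (Equiv.Perm.SameCycle.setoid σ) (σ p)) = Quotient.mk _ p :=
            Quotient.sound (s := Equiv.Perm.SameCycle.setoid σ)
              ((Equiv.Perm.SameCycle.refl σ p).apply_left)
          show f.1.1 (Quotient.mk _ (σ p)) = 0
          rw [h3]
          exact hp
        · intro p hp
          have h3 : (Quotient.mk (Equiv.Perm.SameCycle.setoid τ) (τ p)) = Quotient.mk _ p :=
            Quotient.sound (s := Equiv.Perm.SameCycle.setoid τ)
              ((Equiv.Perm.SameCycle.refl τ p).apply_left)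
          show f.1.1 (Quotient.mk _ (τ p)) = 0
          rw [hLf, h3, ← hLf]
          exact hp
      apply Subtype.ext
      apply Prod.ext
      · funext c
        obtain ⟨p, rfl⟩ := Quotient.exists_rep c
        have : p ∈ {p | f.1.1 (Quotient.mk _ p) = 0} := by rw [hJ]; trivial
        exact this
      · funext c
        obtain ⟨p, rfl⟩ := Quotient.exists_rep c
        have : p ∈ {p | f.1.1 (Quotient.mk _ p) = 0} := by rw [hJ]; trivial
        show f.1.2 (Quotient.mk _ p) = 0
        rw [← hLf]
        exact this
    have h4 := LinearMap.finrank_le_finrank_of_injective hinj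
    rwa [Module.finrank_self] at h4
  have hrk := LinearMap.finrank_range_add_finrank_ker L
  rw [Module.finrank_prod, Module.finrank_fintype_fun_eq_card,
    Module.finrank_fintype_fun_eq_card] at hrk
  have hrange : LinearMap.range L = ⊤ := by
    apply Submodule.eq_top_of_finrank_eq
    rw [Module.finrank_fintype_fun_eq_card]
    apply le_antisymm
    · have h5 := Submodule.finrank_le (LinearMap.range L)
      rwa [Module.finrank_fintype_fun_eq_card] at h5
    · have h6 : Fintype.card P + 1 ≤ Fintype.card R + Fintype.card U := hcard
      omega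
  have hz : z ∈ LinearMap.range L := by rw [hrange]; trivial
  obtain ⟨f, hf⟩ := hz
  exact ⟨f.1, f.2, fun p => congrFun hf p⟩

end aux

/-- the main case: the mean of `√(m_h * m_v)` over the rectangles is at least `1 / 2` -/
theorem main (S : RectangleSurface P)
    (hmean : (Fintype.card P : ℝ) ≤ 2 * ∑ p, √(hModulus S p * vModulus S p)) :
    IsTranslation S := by
  rcases isEmpty_or_nonempty P with hP | hP
  · exact ⟨fun _ => 1, fun p => (hP.false p).elim, fun p => (hP.false p).elim,
      fun p => (hP.false p).elim⟩
  set θ : P → ℝ := fun q => S.w q / S.h q with hθ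
  set η : P → ℝ := fun q => S.h q / S.w q with hη
  have hθpos : ∀ q, 0 < θ q := fun q => div_pos (S.w_pos q) (S.h_pos q)
  have hηpos : ∀ q, 0 < η q := fun q => div_pos (S.h_pos q) (S.w_pos q)
  set A : P → ℝ := fun p => ∑ q with S.right.SameCycle p q, θ q with hA
  set B : P → ℝ := fun p => ∑ q with S.up.SameCycle p q, η q with hB
  have hApos : ∀ p, 0 < A p := fun p => Finset.sum_pos (fun r _ => hθpos r)
      ⟨p, Finset.mem_filter.2 ⟨Finset.mem_univ _, Equiv.Perm.SameCycle.refl _ p⟩⟩
  have hBpos : ∀ p, 0 < B p := fun p => Finset.sum_pos (fun r _ => hηpos r)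
      ⟨p, Finset.mem_filter.2 ⟨Finset.mem_univ _, Equiv.Perm.SameCycle.refl _ p⟩⟩
  have hα : ∀ q, 0 < θ q / A q := fun q => div_pos (hθpos q) (hApos q)
  have hβ : ∀ q, 0 < η q / B q := fun q => div_pos (hηpos q) (hBpos q)
  have hθη : ∀ q, θ q * η q = 1 := by
    intro q
    simp only [hθ, hη]
    have := (S.w_pos q).ne'
    have := (S.h_pos q).ne'
    field_simp
  have hsq : ∀ q, √(hModulus S q * vModulus S q) = √(θ q / A q) * √(η q / B q) := by
    intro q
    rw [← Real.sqrt_mul (hα q).le, div_mul_div_comm, hθη]
    congr 1
    show 1 / A q * (1 / B q) = 1 / (A q * B q)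
    rw [one_div_mul_one_div]
  have hcycR := sum_div_cycle S.right θ hθpos
  have hcycU := sum_div_cycle S.up η hηpos
  have hexp : ∀ q, (√(θ q / A q) - √(η q / B q)) ^ 2 =
      θ q / A q + η q / B q - 2 * √(hModulus S q * vModulus S q) := by
    intro q
    rw [hsq, sub_sq, Real.sq_sqrt (hα q).le, Real.sq_sqrt (hβ q).le]
    ring
  -- it is enough to write `θ` as a quotient of a function of the row and a function of the column
  have concl : ∀ x y : P → ℝ, (∀ p, 0 < x p) → (∀ p, 0 < y p) → (∀ p, θ p = x p / y p) →
      (∀ p, x (S.right p) = x p) → (∀ p, y (S.up p) = y p) → IsTranslation S := by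
    intro x y hx hy hxy hxr hyu
    refine ⟨fun p => 1 / (x p * S.h p), fun p => one_div_pos.2 (mul_pos (hx p) (S.h_pos p)), ?_, ?_⟩
    · intro p
      show 1 / (x (S.right p) * S.h (S.right p)) * S.h (S.right p) = 1 / (x p * S.h p) * S.h p
      rw [hxr]
      have h1 := (S.h_pos (S.right p)).ne'
      have h2 := (S.h_pos p).ne'
      have h3 := (hx p).ne'
      field_simp
    · have key : ∀ p, 1 / (x p * S.h p) * S.w p = 1 / y p := by
        intro p
        have h0 := hxy p
        simp only [hθ] at h0
        have h2 := (S.h_pos p).ne'
        have h3 := (hx p).ne'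
        have h4 := (hy p).ne'
        rw [div_eq_div_iff h2 h4] at h0
        field_simp
        linarith
      intro p
      show 1 / (x (S.up p) * S.h (S.up p)) * S.w (S.up p) = 1 / (x p * S.h p) * S.w p
      rw [key, key, hyu]
  by_cases hcard : Fintype.card P + 1 ≤ Fintype.card (Quotient (Equiv.Perm.SameCycle.setoid S.right)) +
      Fintype.card (Quotient (Equiv.Perm.SameCycle.setoid S.up))
  · obtain ⟨x, y, hxy⟩ := potentials S.right S.up S.connected hcard (fun p => Real.log (θ p))
    refine concl (fun p => Real.exp (x (Quotient.mk _ p))) (fun p => Real.exp (y (Quotient.mk _ p)))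
      (fun p => Real.exp_pos _) (fun p => Real.exp_pos _) ?_ ?_ ?_
    · intro p
      rw [← Real.exp_sub, hxy, Real.exp_log (hθpos p)]
    · intro p
      show Real.exp (x (Quotient.mk _ (S.right p))) = Real.exp (x (Quotient.mk _ p))
      congr 2
      exact Quotient.sound (s := Equiv.Perm.SameCycle.setoid S.right)
              ((Equiv.Perm.SameCycle.refl S.right p).apply_left)
    · intro p
      show Real.exp (y (Quotient.mk _ (S.up p))) = Real.exp (y (Quotient.mk _ p))
      congr 2
      exact Quotient.sound (s := Equiv.Perm.SameCycle.setoid S.up)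
              ((Equiv.Perm.SameCycle.refl S.up p).apply_left)
  · have hle : ∑ q, (√(θ q / A q) - √(η q / B q)) ^ 2 ≤ 0 := by
      rw [Finset.sum_congr rfl fun q _ => hexp q, Finset.sum_sub_distrib, Finset.sum_add_distrib,
        hcycR, hcycU, ← Finset.mul_sum]
      have h1 : Fintype.card (Quotient (Equiv.Perm.SameCycle.setoid S.right)) +
        Fintype.card (Quotient (Equiv.Perm.SameCycle.setoid S.up)) ≤ Fintype.card P := by omega
      have h2 : (Fintype.card (Quotient (Equiv.Perm.SameCycle.setoid S.right)) : ℝ) +
        Fintype.card (Quotient (Equiv.Perm.SameCycle.setoid S.up)) ≤ Fintype.card P := by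
        exact_mod_cast h1
      linarith
    have hzero : ∀ q, θ q / A q = η q / B q := by
      intro q
      have h0 : ∑ q, (√(θ q / A q) - √(η q / B q)) ^ 2 = 0 :=
        le_antisymm hle (Finset.sum_nonneg fun q _ => sq_nonneg _)
      have h1 := (Finset.sum_eq_zero_iff_of_nonneg fun q _ => sq_nonneg _).1 h0 q
        (Finset.mem_univ q)
      have h2 : √(θ q / A q) = √(η q / B q) := by
        have := pow_eq_zero_iff (two_ne_zero) |>.1 h1
        linarith
      exact (Real.sqrt_inj (hα q).le (hβ q).le).1 h2
    have hAr : ∀ q, A (S.right q) = A q := by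
      intro q
      simp only [hA]
      refine Finset.sum_congr ?_ fun _ _ => rfl
      ext r
      simp only [Finset.mem_filter, Finset.mem_univ, true_and]
      exact Equiv.Perm.sameCycle_apply_left
    have hBu : ∀ q, B (S.up q) = B q := by
      intro q
      simp only [hB]
      refine Finset.sum_congr ?_ fun _ _ => rfl
      ext r
      simp only [Finset.mem_filter, Finset.mem_univ, true_and]
      exact Equiv.Perm.sameCycle_apply_left
    refine concl (fun p => √(A p)) (fun p => √(B p)) (fun p => Real.sqrt_pos.2 (hApos p))
      (fun p => Real.sqrt_pos.2 (hBpos p)) ?_ (fun p => ?_) (fun p => ?_)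
    · intro p
      have h1 := hzero p
      have h2 := hθη p
      have h3 := (hApos p).ne'
      have h4 := (hBpos p).ne'
      have h5 : θ p ^ 2 = A p / B p := by
        rw [div_eq_div_iff h3 h4] at h1
        rw [eq_div_iff h4]
        calc θ p ^ 2 * B p = θ p * (θ p * B p) := by ring
          _ = θ p * (η p * A p) := by rw [h1]
          _ = (θ p * η p) * A p := by ring
          _ = A p := by rw [h2, one_mul]
      rw [← Real.sqrt_div (hApos p).le, ← h5, Real.sqrt_sq (hθpos p).le]
    · show √(A (S.right p)) = √(A p)
      rw [hAr]
    · show √(B (S.up p)) = √(B p)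
      rw [hBu]

/-- the product of the moduli of two crossing cylinders is always at least `1 / 4` -/
theorem main_product (S : RectangleSurface P) (h : ∀ p, 1 / 4 ≤ hModulus S p * vModulus S p) :
    IsTranslation S := by
  apply main
  have h1 : ∀ p ∈ (Finset.univ : Finset P), (1 / 2 : ℝ) ≤ √(hModulus S p * vModulus S p) := by
    intro p _
    apply Real.le_sqrt_of_sq_le
    calc (1 / 2 : ℝ) ^ 2 = 1 / 4 := by norm_num
      _ ≤ _ := h p
  have h2 := Finset.card_nsmul_le_sum _ _ _ h1
  rw [Finset.card_univ, nsmul_eq_mul] at h2
  linarith

/-- two multitwists with `t * s ≤ 4` -/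
theorem main_twists (S : RectangleSurface P) (t s : ℝ)
    (ht : HasHorizontalTwist S t) (hs : HasVerticalTwist S s) (hts : t * s ≤ 4) :
    IsTranslation S := by
  apply main_product
  intro p
  obtain ⟨m, hm, h1⟩ := ht p
  obtain ⟨n, hn, h2⟩ := hs p
  have hx : 0 < hModulus S p := one_div_pos.2 (Finset.sum_pos (fun r _ => div_pos (S.w_pos r) (S.h_pos r))
      ⟨p, Finset.mem_filter.2 ⟨Finset.mem_univ _, Equiv.Perm.SameCycle.refl _ p⟩⟩)
  have hy : 0 < vModulus S p := one_div_pos.2 (Finset.sum_pos (fun r _ => div_pos (S.h_pos r) (S.w_pos r))
      ⟨p, Finset.mem_filter.2 ⟨Finset.mem_univ _, Equiv.Perm.SameCycle.refl _ p⟩⟩)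
  have hm1 : (1 : ℝ) ≤ m := by exact_mod_cast hm
  have hn1 : (1 : ℝ) ≤ n := by exact_mod_cast hn
  have h3 : (1 : ℝ) ≤ (t * hModulus S p) * (s * vModulus S p) := by
    rw [h1, h2]
    nlinarith
  have h4 : (t * hModulus S p) * (s * vModulus S p) ≤ 4 * (hModulus S p * vModulus S p) := by
    have : (t * hModulus S p) * (s * vModulus S p) = (t * s) * (hModulus S p * vModulus S p) := by ring
    rw [this]
    exact mul_le_mul_of_nonneg_right hts (mul_pos hx hy).le
  linarith

/-- **Theorem.** A dilation surface is decomposed into flat cylinders by each of two transverse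
directions. It is a translation surface if the mean over the rectangles (the crossings of a
horizontal and a vertical cylinder) of the square root of the product of the two moduli is at least
`1 / 2`; in particular if the product of the moduli of two crossing cylinders is always at least
`1 / 4`; in particular if its multitwists in these directions have derivatives `(1, t; 0, 1)` and
`(1, 0; s, 1)` with `t * s ≤ 4`. -/
theorem result {P : Type} [Fintype P] (S : RectangleSurface P) :
    ((Fintype.card P : ℝ) ≤ 2 * ∑ p, √(hModulus S p * vModulus S p) → IsTranslation S) ∧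
    ((∀ p, 1 / 4 ≤ hModulus S p * vModulus S p) → IsTranslation S) ∧
    ∀ t s : ℝ, HasHorizontalTwist S t → HasVerticalTwist S s → t * s ≤ 4 → IsTranslation S :=
  ⟨main S, main_product S, main_twists S⟩

end Pool.Agent.Results.MP_28dde8_gt.LatticeTwists
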